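import Pool.Agent.MP_13bd65_an.H30.Main

namespace Pool.Agent.Results.MP_13bd65_an.PoissonCPE

open Pool.Agent.MP_13bd65_an.H30 MeasureTheory Filter
open scoped NNReal

/-- The Poisson point process of intensity `t` has completely positive entropy with respect to a
sofic approximation exactly when the group is not compact or the volumes are unbounded. -/
theorem result {G : Type} [Group G] [TopologicalSpace G] [IsTopologicalGroup G] [T2Space G]
    [LocallyCompactSpace G] [SecondCountableTopology G] [MeasurableSpace G] [BorelSpace G]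
    (lam : Measure G) [lam.IsHaarMeasure]
    {M : ℕ → Type} [∀ i, TopologicalSpace (M i)] [∀ i, T2Space (M i)]
    [∀ i, SecondCountableTopology (M i)] [∀ i, MeasurableSpace (M i)] [∀ i, BorelSpace (M i)]
    (α : ∀ i, LocalAction G (M i)) (vol : ∀ i, Measure (M i)) (hα : IsSoficApprox lam α vol)
    (t : ℝ≥0) (ht : 0 < t) (μ : Measure (Measure G)) (hμ : IsPoisson (t • lam) μ) :
    HasCPE α vol μ ↔
      (¬CompactSpace G ∨ ∀ C : ℝ, ∃ᶠ i in atTop, C ≤ (vol i Set.univ).toReal) := by
  have := hα.isMulRightInvariant
  exact ⟨fun h => Or.inr (hα.unbounded_of_hasCPE ht hμ h), fun h => hα.hasCPE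
    (h.elim (fun h C => (hα.unbounded h C).frequently) id) ht hμ⟩

end Pool.Agent.Results.MP_13bd65_an.PoissonCPE
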